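import Mathlib
import Pool.Agent.Y488.TM.BM
import Pool.Agent.Y488.TM.FinB
import Pool.Agent.Y488.TM.ExA
import Pool.Agent.Y488.TM.ExB

/-!
# The Brauer-Manin set of almost all quadratic twists without rational branch points is empty

Let `f k ∈ ℤ[x]` be irreducible over `ℚ`, pairwise non-associated, none of them linear, of even total
degree, at least four of them of odd degree, and let `F k` be the homogenisations.  For all
squarefree `d`, `|d| ≤ X`, with at most `C X (log X)^(-δ)` exceptions, no adelic point of the curve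
`C d : d y² = ∏ k, F k (x, w)` is orthogonal to the classes `(F k, e)` (`deg F k` even) and
`(F k * F l, e)` (`deg F k`, `deg F l` odd) of the Brauer group of `C d`, `e` a nonzero integer; so the
Brauer-Manin set of `C d` is empty.  This applies to the curves
`d y² = (x² + x + 1)(x³ - 2)(x³ - 3)(x³ - 5)(x³ - 19)` of genus 6, which have adelic points for all
`d`.

The case of factors of even degree is in the starting library (EmptyBrauerManinSet).  The twists with
rational branch points are considered in `MP_ab3ecb_nt/TwistsNearBranchPoint.lean`.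
-/

set_option autoImplicit false

namespace Pool.Agent.Results.MP_308fa9_nt.BrauerManinMixedFactors

open Finset Polynomial Pool.Agent.W313.BMX

section K

variable {K : Type} [Fintype K] [DecidableEq K]

/-- the indices of the factors of odd degree -/
def Od (f : K → ℤ[X]) : Finset K := univ.filter (fun k => Odd (f k).natDegree)

/-- the factors are irreducible over `ℚ`, pairwise non-associated, of even total degree, and at
least four of them have odd degree -/
def Factors (f : K → ℤ[X]) : Prop :=
  (∀ k, Irreducible ((f k).map (Int.castRingHom ℚ))) ∧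
  (∀ k l, k ≠ l →
    ¬ Associated ((f k).map (Int.castRingHom ℚ)) ((f l).map (Int.castRingHom ℚ))) ∧
  Even (∑ k, (f k).natDegree) ∧ 4 ≤ (Od f).card

/-- The family of the values of `F k * F l` at the components of an adelic point. -/
noncomputable def values2 {f : K → ℤ[X]} {d : ℤ} (P : AdelicPoint f d) (k l : K) : Fam :=
  ⟨value P.re k * value P.re l, fun p => value (P.pa p) k * value (P.pa p) l⟩

/-- The adelic point is orthogonal to the classes `(F k, e)`, `deg F k` even, and `(F k * F l, e)`,
`deg F k`, `deg F l` odd: the number of the places at which the Hilbert symbol is not trivial is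
even, so that the sum of the invariants is zero. -/
def Orthogonal {f : K → ℤ[X]} {d : ℤ} (P : AdelicPoint f d) : Prop :=
  ∀ e : ℤ, e ≠ 0 → (∀ k, Even (f k).natDegree → Even (ram (values P k) e).ncard) ∧
    ∀ k l, k ≠ l → Odd (f k).natDegree → Odd (f l).natDegree → Even (ram (values2 P k l) e).ncard

end K

/-- `X² + X + 1`, `X³ - 2`, `X³ - 3`, `X³ - 5`, `X³ - 19` -/
noncomputable def ex : Fin 5 → ℤ[X] :=
  ![X ^ 2 + X + 1, X ^ 3 - 2, X ^ 3 - 3, X ^ 3 - 5, X ^ 3 - 19]

theorem result :
    (∀ (K : Type) [Fintype K] [DecidableEq K] (f : K → ℤ[X]), Factors f →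
      (∀ k, (f k).natDegree ≠ 1) →
      ∃ δ : ℝ, 0 < δ ∧ ∃ C : ℝ, ∀ X : ℕ, 3 ≤ X →
        ({d : ℤ | d.natAbs ≤ X ∧ Squarefree d ∧ ∃ P : AdelicPoint f d, Orthogonal P}.ncard : ℝ) ≤
          C * X * (Real.log X) ^ (-δ)) ∧
    (Factors ex ∧ (∀ k, (ex k).natDegree ≠ 1) ∧ ∀ d : ℤ, Nonempty (AdelicPoint ex d)) := by
  have hyp0 : ∀ (K : Type) [Fintype K] [DecidableEq K] (f : K → ℤ[X]), Factors f →
      (∀ k, (f k).natDegree ≠ 1) → Pool.Agent.Y488.TM.Hyp f := by
    intro K _ _ f hF hl
    have hLn : Pool.Agent.Y488.TM.Ln f = ∅ := by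
      unfold Pool.Agent.Y488.TM.Ln
      rw [filter_eq_empty_iff]
      exact fun k _ => hl k
    refine ⟨hF.1, hF.2.1, hF.2.2.1, hF.2.2.2, fun i hi => ?_, fun h4 hs => ?_⟩
    · exact absurd (show i ∈ Pool.Agent.Y488.TM.Ln f from hi) (by rw [hLn]; exact notMem_empty i)
    · exfalso
      have h1 : Od f ⊆ Pool.Agent.Y488.TM.Ln f := hs
      rw [hLn, subset_empty] at h1
      have h2 : (Od f).card = 4 := h4
      rw [h1, card_empty] at h2
      omega
  refine ⟨fun K _ _ f hF hl => ?_, ?_⟩
  · obtain ⟨δ, hδ, C, hC⟩ :=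
      Pool.Agent.Y488.TM.bm_main Pool.Agent.Y488.TM.finb f (hyp0 K f hF hl)
    refine ⟨δ, hδ, C, fun X hX => le_trans ?_ (hC X hX)⟩
    refine Nat.cast_le.2 (Set.ncard_le_ncard ?_ (Pool.Agent.TH213.SP.fin_le X _))
    rintro d ⟨h1, h2, P, hP⟩
    exact ⟨h1, h2, P, hP, fun i hi => absurd hi (hl i)⟩
  · obtain ⟨a1, a2, a3, a4⟩ := Pool.Agent.Y488.TM.exa
    obtain ⟨b1, b2⟩ := Pool.Agent.Y488.TM.exb
    have d0 : (ex 0).natDegree = 2 := a3
    have d1 : (ex 1).natDegree = 3 := a4 1 (by decide)
    have d2 : (ex 2).natDegree = 3 := a4 2 (by decide)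
    have d3 : (ex 3).natDegree = 3 := a4 3 (by decide)
    have d4 : (ex 4).natDegree = 3 := a4 4 (by decide)
    have hom0 : ∀ {L : Type} [Field L] (x : L), x ^ 2 + x + 1 = 0 → homog (ex 0) x 1 = 0 := by
      intro L _ x hx
      have e : ex 0 = X ^ 2 + X + 1 := rfl
      unfold homog
      rw [d0, sum_range_succ, sum_range_succ, sum_range_one, e]
      simp only [coeff_add, coeff_X_pow, coeff_X, coeff_one]
      norm_num
      linear_combination hx
    have hom4 : ∀ {L : Type} [Field L] (x : L), x ^ 3 = 19 → homog (ex 4) x 1 = 0 := by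
      intro L _ x hx
      have e : ex 4 = X ^ 3 - C 19 := by
        change (X ^ 3 - 19 : ℤ[X]) = _
        simp
      unfold homog
      rw [d4, sum_range_succ, sum_range_succ, sum_range_succ, sum_range_one, e]
      simp only [coeff_sub, coeff_X_pow, coeff_C]
      norm_num
      linear_combination hx
    have pt : ∀ {L : Type} [Field L] (d : ℤ) (x : L) (k : Fin 5), homog (ex k) x 1 = 0 →
        Nonempty (Point ex d L) := by
      intro L _ d x k h
      refine ⟨⟨x, 1, 0, Or.inr one_ne_zero, ?_⟩⟩
      rw [prod_eq_zero (mem_univ k) h]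
      ring
    refine ⟨⟨a1, a2, ?_, ?_⟩, ?_, fun d => ?_⟩
    · rw [Fin.sum_univ_five, d0, d1, d2, d3, d4]
      decide
    · have h : ({1, 2, 3, 4} : Finset (Fin 5)) ⊆ Od ex := by
        intro k hk
        unfold Od
        rw [mem_filter]
        refine ⟨mem_univ _, ?_⟩
        rw [a4 k (by rintro rfl; revert hk; decide) |> (fun h : (ex k).natDegree = 3 => h)]
        decide
      exact card_le_card h
    · intro k hk
      by_cases h0 : k = 0
      · subst h0
        rw [d0] at hk
        omega
      · have h3 : (ex k).natDegree = 3 := a4 k h0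
        rw [h3] at hk
        omega
    · obtain ⟨x, hx⟩ := b1
      have h1 : Nonempty (Point ex d ℝ) := pt d x 4 (hom4 x hx)
      have h2 : ∀ p : Nat.Primes, Nonempty (Point ex d ℚ_[(p : ℕ)]) := by
        intro p
        rcases b2 (p : ℕ) with ⟨x, hx⟩ | ⟨x, hx⟩
        · exact pt d x 0 (hom0 x hx)
        · exact pt d x 4 (hom4 x hx)
      exact ⟨⟨h1.some, fun p => (h2 p).some⟩⟩

end Pool.Agent.Results.MP_308fa9_nt.BrauerManinMixedFactors
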