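import Pool.Agent.Y213.T6.Cl

/-!
# Closures of the Mordell-Weil group and the members of a family of subvarieties

`E : y² = x³ + a x + b` is an elliptic curve over a number field `K` (any rank), and `X` is a closed
subvariety of `E ^ r × ℙ ^ n` such that the fibres of `X → E ^ r` have at most `D` points. For
`y` in `ℙ ^ n (K)` the member `X_y` of the family is the closed subvariety of `E ^ r` over which `y`
is a point of the fibre, for example a curve. For all but `O(B ^ ε)` of the points `y` of height at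
most `B`, the closure of the group of rational points of `E ^ r` in the product of its `K_v`-points,
over all finite places `v` outside a finite set, does not meet the product of the `X_y(K_v)`.
-/

set_option autoImplicit false

namespace Pool.Agent.Results.MP_308fa9_nt.ClosuresInFamilies

open MvPolynomial NumberField IsDedekindDomain Pool.Agent.TH954

open scoped LinearAlgebra.Projectivization

/-- `v` are homogeneous coordinates of a point of the curve `y² = x³ + a x + b` -/
def OnE {k : Type} [Field k] (a b : k) (v : Fin 3 → k) : Prop :=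
  v ≠ 0 ∧ v 1 ^ 2 * v 2 = v 0 ^ 3 + a * v 0 * v 2 ^ 2 + b * v 2 ^ 3

/-- the curve `y² = x³ + a x + b` -/
def Curve {k : Type} [Field k] (a b : k) : WeierstrassCurve k :=
  { a₁ := 0, a₂ := 0, a₃ := 0, a₄ := a, a₆ := b }

/-- `F` is homogeneous of degree `d i` in the coordinates `(i, 0), (i, 1), (i, 2)` of the `i`-th
point of the plane, and homogeneous of degree `m` in the last `n + 1` variables -/
def MultiHomog {O : Type} [CommRing O] {r n : ℕ}
    (F : MvPolynomial ((Fin r × Fin 3) ⊕ Fin (n + 1)) O) (d : Fin r → ℕ) (m : ℕ) : Prop :=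
  ∀ e ∈ F.support, (∀ i, ∑ j, e (Sum.inl (i, j)) = d i) ∧ ∑ i, e (Sum.inr i) = m

/-- the fibre over `V` (the homogeneous coordinates of a point of `E ^ r` over `k`), in the
projective `n`-space over `k`, of the subvariety defined by the `G e` -/
def Fibre {O k : Type} [CommRing O] [Field k] (φ : O →+* k) {r n q : ℕ}
    (G : Fin q → MvPolynomial ((Fin r × Fin 3) ⊕ Fin (n + 1)) O) (V : Fin r → Fin 3 → k) :
    Set (ℙ k (Fin (n + 1) → k)) :=
  {y | ∀ e, eval₂ φ (Sum.elim (fun ij => V ij.1 ij.2) y.rep) (G e) = 0}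

/-- the equations `G e (V; y) = 0` of the member `X_y` of the family, for `y` in the projective
`n`-space over `K` -/
noncomputable def Member {K : Type} [Field K] {r n q : ℕ}
    (G : Fin q → MvPolynomial ((Fin r × Fin 3) ⊕ Fin (n + 1)) (𝓞 K))
    (y : ℙ K (Fin (n + 1) → K)) : Set (MvPolynomial (Fin r × Fin 3) K) :=
  Set.range fun e =>
    eval₂ (C.comp (algebraMap (𝓞 K) K)) (Sum.elim X (fun i => C (y.rep i))) (G e)

/-- the points `y` such that some point of the product of the `X_y(K_v)`, `v` outside `S`, lies in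
the closure of the group of rational points of `E ^ r` -/
def Unobstructed {K : Type} [Field K] [NumberField K] (a b : 𝓞 K) {r n q : ℕ}
    (G : Fin q → MvPolynomial ((Fin r × Fin 3) ⊕ Fin (n + 1)) (𝓞 K))
    (S : Set (HeightOneSpectrum (𝓞 K))) : Set (ℙ K (Fin (n + 1) → K)) :=
  {y | ∃ x ∈ adelicClosure (E := Curve (a : K) (b : K)) (n := r) S Set.univ,
    ∀ v, OnX (Member G y) (fun i => crd (x v i))}

theorem result (K : Type) [Field K] [NumberField K] (a b : 𝓞 K)
    (hE : 4 * a ^ 3 + 27 * b ^ 2 ≠ 0) (r n q : ℕ)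
    (G : Fin q → MvPolynomial ((Fin r × Fin 3) ⊕ Fin (n + 1)) (𝓞 K))
    (d : Fin q → Fin r → ℕ) (m : Fin q → ℕ) (hG : ∀ e, MultiHomog (G e) (d e) (m e))
    (σ : K →+* ℂ) (D : ℕ)
    (hX : ∀ V : Fin r → Fin 3 → ℂ, (∀ i, OnE (σ a) (σ b) (V i)) →
      (Fibre (σ.comp (algebraMap (𝓞 K) K)) G V).encard ≤ D)
    (S : Set (HeightOneSpectrum (𝓞 K))) (hS : S.Finite) (ε : ℝ) (hε : 0 < ε) :
    ∃ C : ℝ, ∀ B : ℝ, 1 ≤ B → {y ∈ Unobstructed a b G S | y.mulHeight ≤ B}.Finite ∧
      ({y ∈ Unobstructed a b G S | y.mulHeight ≤ B}.ncard : ℝ) ≤ C * B ^ ε := by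
  obtain ⟨C, hC⟩ := Pool.Agent.Y213.T6.closure_main K r (n + 1) q a b hE G d m
    (fun e x hx => (hG e x hx).1) (fun e x hx => (hG e x hx).2) D σ hX S hS ε hε
  refine ⟨C, fun B hB => ?_⟩
  have h1 : {y ∈ Unobstructed a b G S | y.mulHeight ≤ B} =
      {y : ℙ K (Fin (n + 1) → K) | y.mulHeight ≤ B ∧
        ∃ x ∈ adelicClosure (E := Pool.Agent.TH942.sw (a : K) (b : K)) (n := r) S Set.univ,
          ∀ v, OnX (Pool.Agent.Y213.T6.mbr G y.rep) (fun i => crd (x v i))} := by
    ext y
    exact and_comm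
  rw [h1]
  exact hC B hB

end Pool.Agent.Results.MP_308fa9_nt.ClosuresInFamilies
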