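import Pool.Agent.Y213.CB.Fin

/-!
# Families of curves and the closures of the Mordell-Weil groups over extensions of bounded degree

`E : y² = x³ + a x + b` is an elliptic curve over a number field `K` (any rank, with or without
complex multiplication) and `X` a closed subset of `E ^ r × ℙ ^ n` over `K`, a family of closed
subsets `X_y ⊆ E ^ r` with parameter space `ℙ ^ n`. Suppose that for all `2 ≤ m ≤ M` every complex
point `S` of `E ^ r` is a sum of `m` points of `X_y` for at most `D` of the `y`. Then for all but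
`O(B ^ ε)` of the points `y` in `ℙ ^ n (K)` of height at most `B` the following holds: for ALL
extensions `F` of `K` of degree between `2` and `M`, the closure of the group `E(F) ^ r` in the
product of the `E(F_w) ^ r` (over the finite places `w` of `F` outside a fixed finite set) does not
meet the product of the `X_y(F_w)`; so the Mordell-Weil sieve explains, over all these fields at
once, that `X_y` has no `F`-rational points.
-/

set_option autoImplicit false

namespace Pool.Agent.Results.MP_308fa9_nt.FamiliesOverExtensions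

open MvPolynomial NumberField IsDedekindDomain Pool.Agent.TH954

open scoped LinearAlgebra.Projectivization

/-- the curve `y² = x³ + a x + b` -/
def curve {F : Type} [Field F] (a b : F) : WeierstrassCurve F := ⟨0, 0, 0, a, b⟩

/-- homogeneous coordinates of a point in the projective plane -/
def coords {F : Type} [Field F] {W : WeierstrassCurve F} : W.toAffine.Point → Fin 3 → F
  | .zero => ![0, 1, 0]
  | .some x y _ => ![x, y, 1]

/-- `F` is homogeneous of degree `d i` in the coordinates `(i, 0), (i, 1), (i, 2)` of the `i`-th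
point of the plane, and homogeneous of degree `m` in the last `n + 1` variables -/
def MultiHom {O : Type} [CommRing O] {r n : ℕ} (F : MvPolynomial ((Fin r × Fin 3) ⊕ Fin (n + 1)) O)
    (d : Fin r → ℕ) (m : ℕ) : Prop :=
  ∀ e ∈ F.support, (∀ i, ∑ j, e (Sum.inl (i, j)) = d i) ∧ ∑ i, e (Sum.inr i) = m

open scoped Classical in
/-- `S` is a sum of `m` complex points `P` of the member `X_y`, that is, with `G_e(P; y) = 0` for
all `e` -/
def IsSum {K : Type} [Field K] (σ : K →+* ℂ) (a b : 𝓞 K) {r n q : ℕ}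
    (G : Fin q → MvPolynomial ((Fin r × Fin 3) ⊕ Fin (n + 1)) (𝓞 K)) (m : ℕ)
    (S : Fin r → (curve (σ a) (σ b)).toAffine.Point) (y : Fin (n + 1) → ℂ) : Prop :=
  ∃ P : Fin m → Fin r → (curve (σ a) (σ b)).toAffine.Point,
    (∀ j e, eval₂ (σ.comp (algebraMap (𝓞 K) K))
      (Sum.elim (fun il => coords (P j il.1) il.2) y) (G e) = 0) ∧ ∀ i, ∑ j, P j i = S i

/-- the equations `G_e(V; y) = 0`, over the extension `F` of `K`, of the member `X_y`, for a
`K`-rational point `y` of `ℙ ^ n` -/
noncomputable def MemberOver {K : Type} [Field K] {r n q : ℕ}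
    (G : Fin q → MvPolynomial ((Fin r × Fin 3) ⊕ Fin (n + 1)) (𝓞 K)) (F : Type) [Field F]
    [Algebra K F] (y : ℙ K (Fin (n + 1) → K)) : Set (MvPolynomial (Fin r × Fin 3) F) :=
  Set.range fun e => eval₂ (C.comp ((algebraMap K F).comp (algebraMap (𝓞 K) K)))
    (Sum.elim X (fun i => C (algebraMap K F (y.rep i)))) (G e)

/-- the finite places of `F` above the primes in `T` -/
def PlacesAbove (T : Finset ℕ) (F : Type) [Field F] [NumberField F] :
    Set (HeightOneSpectrum (𝓞 F)) :=
  {w | ∃ p ∈ T, ((p : ℕ) : 𝓞 F) ∈ w.asIdeal}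

/-- the points `y` such that, for SOME extension `F` of `K` of degree between `2` and `M`, some
point of the product of the `X_y(F_w)`, `w` not above `T`, lies in the closure of the group of
`F`-rational points of `E ^ r` -/
def Unobstructed {K : Type} [Field K] [NumberField K] (a b : 𝓞 K) {r n q : ℕ}
    (G : Fin q → MvPolynomial ((Fin r × Fin 3) ⊕ Fin (n + 1)) (𝓞 K)) (T : Finset ℕ) (M : ℕ) :
    Set (ℙ K (Fin (n + 1) → K)) :=
  {y | ∃ (F : Type) (_ : Field F) (_ : NumberField F) (_ : Algebra K F),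
    2 ≤ Module.finrank K F ∧ Module.finrank K F ≤ M ∧
    ∃ x ∈ adelicClosure (E := curve (algebraMap K F a) (algebraMap K F b)) (n := r)
      (PlacesAbove T F) Set.univ, ∀ w, OnX (MemberOver G F y) (fun i => crd (x w i))}

theorem coords_eq {F : Type} [Field F] {a b : F} (P : Pool.Agent.H901R3.MS.Pt a b) :
    coords P = Pool.Agent.H901R3.MS.rep P := by
  rcases P with _ | ⟨x, y, h⟩ <;> rfl

theorem result (K : Type) [Field K] [NumberField K] (a b : 𝓞 K)
    (hE : 4 * a ^ 3 + 27 * b ^ 2 ≠ 0) (r n q : ℕ)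
    (G : Fin q → MvPolynomial ((Fin r × Fin 3) ⊕ Fin (n + 1)) (𝓞 K))
    (d : Fin q → Fin r → ℕ) (deg : Fin q → ℕ) (hG : ∀ e, MultiHom (G e) (d e) (deg e))
    (σ : K →+* ℂ) (M D : ℕ)
    (hX : ∀ m, 2 ≤ m → m ≤ M → ∀ S : Fin r → (curve (σ a) (σ b)).toAffine.Point,
      {y : ℙ ℂ (Fin (n + 1) → ℂ) | IsSum σ a b G m S y.rep}.encard ≤ D)
    (T : Finset ℕ) (hT : ∀ p ∈ T, p.Prime) (ε : ℝ) (hε : 0 < ε) :
    ∃ C : ℝ, ∀ B : ℝ, 1 ≤ B → {y ∈ Unobstructed a b G T M | y.mulHeight ≤ B}.Finite ∧
      ({y ∈ Unobstructed a b G T M | y.mulHeight ≤ B}.ncard : ℝ) ≤ C * B ^ ε := by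
  obtain ⟨C, hC⟩ := Pool.Agent.Y213.CB.partBC K r (n + 1) q (Finset.Ico 1 M) a b hE G d deg
    (fun e x hx => (hG e x hx).1) (fun e x hx => (hG e x hx).2) D σ (by
      intro m hm S
      rw [Finset.mem_Ico] at hm
      refine (Set.encard_le_encard ?_).trans (hX (m + 1) (by omega) (by omega) S)
      intro y hy
      obtain ⟨P, hP1, hP2⟩ := hy
      refine ⟨P, fun j e => ?_, hP2⟩
      have h1 := hP1 j e
      unfold Pool.Agent.Y213.EC.vl at h1
      rw [← h1]
      congr 1
      funext ij
      rcases ij with ij | i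
      · exact congrFun (coords_eq (P j ij.1)) ij.2
      · rfl) T hT ε hε
  refine ⟨C, fun B hB => ?_⟩
  obtain ⟨h1, h2⟩ := hC B hB
  have hsub : {y ∈ Unobstructed a b G T M | y.mulHeight ≤ B} ⊆ {y : ℙ K (Fin (n + 1) → K) |
      (∃ m ∈ Finset.Ico 1 M, Pool.Agent.Y213.CB.ClPt a b G m T y.rep) ∧ y.mulHeight ≤ B} := by
    rintro y ⟨⟨F, hF1, hF2, hF3, hF4, hF5, x, hx, hxy⟩, hyB⟩
    exact ⟨⟨Module.finrank K F - 1, Finset.mem_Ico.2 ⟨by omega, by omega⟩, F, hF1, hF2, hF3,
      by omega, x, hx, hxy⟩, hyB⟩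
  refine ⟨h1.subset hsub, le_trans ?_ h2⟩
  exact_mod_cast Set.ncard_le_ncard hsub h1

end Pool.Agent.Results.MP_308fa9_nt.FamiliesOverExtensions
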